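import Pool.Agent.Helper80.HG.St

set_option autoImplicit false

namespace Pool.Agent.Helper89.HG

open Pool.Agent.Helper80.HG Filter Topology Asymptotics Pool.Agent.Helper58.RK
open scoped commutatorElement

section

variable {H : Set (ℝ → ℝ)} {Γ : Type} [Group Γ] {θ : Γ → ℝ → ℝ}

omit [Group Γ] in
private lemma tr_iff (g : Γ) : Tr θ g ↔ ∀ᶠ x in atTop, dsp θ g x = 0 := by
  unfold Tr dsp
  constructor
  · intro h
    filter_upwards [h] with x hx
    rw [hx, sub_self]
  · intro h
    filter_upwards [h] with x hx
    linarith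

private lemma nz (hS : SB H θ) (hB : Bas H) {g : Γ} (hg : ¬ Tr θ g) : ∀ᶠ x in atTop, dsp θ g x ≠ 0 := by
  rcases hB.sign _ (hS.dmem g) with h | h | h
  · exact absurd ((tr_iff g).2 h) hg
  · filter_upwards [h] with x hx
    exact hx.ne'
  · filter_upwards [h] with x hx
    exact hx.ne

private lemma conjO (hS : SB H θ) (hB : Bas H)
    (hNM : ∀ g f : Γ, ¬ Tr θ f → ∃ l : ℝ, 0 < l ∧
      Tendsto (fun z => dsp θ (g * f * g⁻¹) z / dsp θ f z) atTop (𝓝 l)) (h g : Γ) :
    dsp θ (h * g * h⁻¹) =O[atTop] dsp θ g := by
  by_cases hg : Tr θ g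
  · have h1 := hS.tconj h g hg
    have h2 : dsp θ (h * g * h⁻¹) =ᶠ[atTop] fun _ => (0 : ℝ) := (tr_iff _).1 h1
    exact (isBigO_zero _ _).congr' h2.symm (EventuallyEq.refl _ _)
  · obtain ⟨l, _, hl⟩ := hNM h g hg
    refine isBigO_of_div_tendsto_nhds ?_ l hl
    filter_upwards [nz hS hB hg] with x hx h0
    exact absurd h0 hx

private lemma tri3 (hS : SB H θ) (hB : Bas H) {x y : Γ} (hx : ¬ Tr θ x) (hy : ¬ Tr θ y) :
    (dsp θ x =o[atTop] dsp θ y) ∨ (dsp θ x =O[atTop] dsp θ y ∧ dsp θ y =O[atTop] dsp θ x) ∨
      (dsp θ y =o[atTop] dsp θ x) := by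
  have hxz := nz hS hB hx
  have hyz := nz hS hB hy
  have hq : (fun z => dsp θ x z / dsp θ y z) ∈ H := hB.div _ (hS.dmem x) _ (hS.dmem y)
  have hinf : Tendsto (fun z => (dsp θ x z / dsp θ y z)⁻¹) atTop (𝓝 0) →
      dsp θ y =o[atTop] dsp θ x := by
    intro h
    refine (isLittleO_iff_tendsto' ?_).2 ?_
    · filter_upwards [hxz] with z hz h0
      exact absurd h0 hz
    · refine h.congr fun z => ?_
      rw [inv_div]
  rcases hB.lim _ hq with ⟨c, hc⟩ | h | h
  · by_cases hc0 : c = 0
    · left
      rw [hc0] at hc
      refine (isLittleO_iff_tendsto' ?_).2 hc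
      filter_upwards [hyz] with z hz h0
      exact absurd h0 hz
    · right; left
      constructor
      · refine isBigO_of_div_tendsto_nhds ?_ c hc
        filter_upwards [hyz] with z hz h0
        exact absurd h0 hz
      · exact isBigO_of_div_tendsto_nhds_of_ne_zero hc hc0
  · right; right
    exact hinf (tendsto_inv_atTop_zero.comp h)
  · right; right
    exact hinf (tendsto_inv_atBot_zero.comp h)

end

theorem hJP : StJP := by
  intro H hB Γ _ θ r hS hF hr hNM hLA hne
  classical
  choose C hC using fun x : Γ => hS.big (dsp θ x)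
  choose D hD using fun x : Γ => hS.lit (dsp θ x)
  have hnt : ∀ {x : Γ}, x ≠ 1 → ¬ Tr θ x := fun hx h => hx (hF _ h)
  let J : Jumps Γ :=
    { C := C
      D := D
      hC := by
        intro x
        constructor
        intro g hg h
        rw [hC] at hg ⊢
        exact (conjO hS hB hNM h g).trans hg
      hD := by
        intro x
        constructor
        intro g hg h
        rw [hD] at hg ⊢
        exact (conjO hS hB hNM h g).trans_isLittleO hg
      mem := by
        intro x _
        exact (hC x x).2 (isBigO_refl _ _)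
      nmem := by
        intro x hx h
        rw [hD] at h
        exact isLittleO_irrefl (nz hS hB (hnt hx)).frequently h
      le := by
        intro x _ g hg
        rw [hD] at hg
        rw [hC]
        exact hg.isBigO
      cmpD := by
        intro x y hx hy
        rcases tri3 hS hB (hnt hx) (hnt hy) with h | ⟨_, h⟩ | h
        · right
          intro g hg
          rw [hC] at hg
          rw [hD]
          exact hg.trans_isLittleO h
        · left
          intro g hg
          rw [hD] at hg ⊢
          exact hg.trans_isBigO h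
        · left
          intro g hg
          rw [hD] at hg ⊢
          exact hg.trans h
      cmpC := by
        intro x y hx hy
        rcases tri3 hS hB (hnt hx) (hnt hy) with h | ⟨h, _⟩ | h
        · right
          intro g hg
          rw [hC] at hg ⊢
          exact hg.trans h.isBigO
        · right
          intro g hg
          rw [hC] at hg ⊢
          exact hg.trans h
        · left
          intro g hg
          rw [hC] at hg
          rw [hD]
          exact hg.trans_isLittleO h
      tf := by
        intro x _ a _ n hn han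
        -- the positive case
        have key : ∀ b : Γ, Pos θ b → b ^ n ∈ D x → b ∈ D x := by
          intro b hb hbn
          rw [hD] at hbn ⊢
          refine IsBigO.trans_isLittleO ?_ hbn
          refine IsBigO.of_bound 1 ?_
          filter_upwards [hb, hS.pow b hb n hn] with z hz1 hz2
          rw [one_mul]
          unfold dsp
          rw [Real.norm_of_nonneg (by linarith), Real.norm_of_nonneg (by linarith)]
          linarith
        rcases hS.tri a with h | h | h
        · rw [hF a h]
          exact (D x).one_mem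
        · exact key a h han
        · have h1 : a⁻¹ ^ n ∈ D x := by
            rw [inv_pow]
            exact (D x).inv_mem han
          have h2 := key a⁻¹ h h1
          exact (D x).inv_mem_iff.1 h2 }
  -- centrality
  have hcen : ∀ x : Γ, x ≠ 1 → ∀ a ∈ J.C x, ∀ t : commutator Γ,
      ⁅a, (commutator Γ).subtype t⁆ ∈ J.D x := by
    intro x _ a ha t
    change ⁅a, (t : Γ)⁆ ∈ D x
    have ha' : dsp θ a =O[atTop] dsp θ x := (hC x a).1 ha
    by_cases ha1 : a = 1
    · rw [ha1, commutatorElement_one_left]
      exact (D x).one_mem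
    have hna := hnt ha1
    have hl := hLA t.1 t.2 a hna
    set b : Γ := (t : Γ) * a * (t : Γ)⁻¹ with hb
    have hcomm : ⁅a, (t : Γ)⁆ = a * b⁻¹ := by
      rw [commutatorElement_def, hb]
      group
    have hza := nz hS hB hna
    have hba : (fun z => dsp θ b z - dsp θ a z) =o[atTop] dsp θ a := by
      have h1 : dsp θ b ~[atTop] dsp θ a := (isEquivalent_iff_tendsto_one hza).2 hl
      exact h1.isLittleO
    have hbO : dsp θ b =O[atTop] dsp θ a := conjO hS hB hNM _ _
    have hinv : (fun z => dsp θ b⁻¹ z + dsp θ b z) =o[atTop] dsp θ b := hS.invd b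
    have hbiO : dsp θ b⁻¹ =O[atTop] dsp θ a := by
      have h1 : (fun z => (dsp θ b⁻¹ z + dsp θ b z) - dsp θ b z) =O[atTop] dsp θ a :=
        (hinv.isBigO.trans hbO).sub hbO
      refine h1.congr_left fun z => ?_
      ring
    have hadd := hS.add a b⁻¹
    rw [hD, hcomm]
    refine IsLittleO.trans_isBigO ?_ ha'
    have h3 : (fun z => (dsp θ (a * b⁻¹) z - dsp θ a z - dsp θ b⁻¹ z) + (dsp θ b⁻¹ z + dsp θ b z) -
        (dsp θ b z - dsp θ a z)) =o[atTop] dsp θ a :=
      ((hadd.trans_isBigO hbiO).add (hinv.trans_isBigO hbO)).sub hba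
    refine h3.congr_left fun z => ?_
    ring
  have hinj : Function.Injective (commutator Γ).subtype := (commutator Γ).subtype_injective
  have hbot := central_thm (hr.pull (commutator Γ).subtype hinj) (J.pull (commutator Γ).subtype hinj)
    (J.pull_central (commutator Γ).subtype hinj hcen)
  -- the last nontrivial term
  have hex : ∃ n, (⊤ : Subgroup (commutator Γ)).lowerCentralSeries n = ⊥ := ⟨_, hbot⟩
  have hmin := Nat.find_spec hex
  have hpos : Nat.find hex ≠ 0 := by
    intro h0
    rw [h0, Subgroup.lowerCentralSeries_zero] at hmin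
    obtain ⟨u, hu, hu1⟩ := hne
    have h1 : (⟨u, hu⟩ : commutator Γ) ∈ (⊤ : Subgroup (commutator Γ)) := Subgroup.mem_top _
    rw [hmin, Subgroup.mem_bot] at h1
    exact hu1 (congrArg Subtype.val h1)
  obtain ⟨n, hn⟩ := Nat.exists_eq_succ_of_ne_zero hpos
  have hlt : (⊤ : Subgroup (commutator Γ)).lowerCentralSeries n ≠ ⊥ :=
    Nat.find_min hex (by omega)
  obtain ⟨z, hz, hz1⟩ : ∃ z : commutator Γ, z ∈ (⊤ : Subgroup (commutator Γ)).lowerCentralSeries n ∧ z ≠ 1 := by
    by_contra hcon
    push Not at hcon
    exact hlt ((Subgroup.eq_bot_iff_forall _).2 hcon)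
  refine ⟨(z : Γ), z.2, ?_, ?_⟩
  · intro h
    apply hz1
    apply Subtype.ext
    exact h
  · intro u hu
    have h1 : ⁅z, (⟨u, hu⟩ : commutator Γ)⁆ ∈
        (⊤ : Subgroup (commutator Γ)).lowerCentralSeries (n + 1) := by
      rw [Subgroup.lowerCentralSeries_succ]
      exact Subgroup.commutator_mem_commutator hz (Subgroup.mem_top _)
    rw [hn] at hmin
    rw [hmin, Subgroup.mem_bot, commutatorElement_eq_one_iff_mul_comm] at h1
    have h2 := congrArg Subtype.val h1
    exact h2.symm

end Pool.Agent.Helper89.HG
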